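import Mathlib

set_option autoImplicit false

namespace Pool.Agent.Results.MP_ddf116_an.ClosureLocates

/-- `T`, a set of pairs (point, functional), is monotone. -/
def IsMonotone {X : Type*} [AddCommGroup X] [Module ℝ X] [TopologicalSpace X]
    (T : Set (X × StrongDual ℝ X)) : Prop :=
  ∀ p ∈ T, ∀ q ∈ T, 0 ≤ (p.2 - q.2) (p.1 - q.1)

/-- the domain `D(T)` -/
def dom {X : Type*} [AddCommGroup X] [Module ℝ X] [TopologicalSpace X]
    (T : Set (X × StrongDual ℝ X)) : Set X :=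
  {x | ∃ f, (x, f) ∈ T}

/-- the restriction `T|_V` -/
def restr {X : Type*} [AddCommGroup X] [Module ℝ X] [TopologicalSpace X]
    (T : Set (X × StrongDual ℝ X)) (V : Set X) : Set (X × StrongDual ℝ X) :=
  {p | p ∈ T ∧ p.1 ∈ V}

/-- `p` is monotonically related to `S` -/
def Related {X : Type*} [AddCommGroup X] [Module ℝ X] [TopologicalSpace X]
    (S : Set (X × StrongDual ℝ X)) (p : X × StrongDual ℝ X) : Prop :=
  ∀ q ∈ S, 0 ≤ (p.2 - q.2) (p.1 - q.1)

/-- `V` locates `T` -/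
def Locates {X : Type*} [AddCommGroup X] [Module ℝ X] [TopologicalSpace X]
    (V : Set X) (T : Set (X × StrongDual ℝ X)) : Prop :=
  ∀ p : X × StrongDual ℝ X, p.1 ∈ V → Related (restr T V) p → p.1 ∈ dom T

/-- There are a monotone operator `T` on the plane `ℝ²` and an open convex set `V` meeting the
domain of `T` such that the closure of `V` locates `T` but `V` does not. -/
theorem result : ∃ (T : Set (EuclideanSpace ℝ (Fin 2) × StrongDual ℝ (EuclideanSpace ℝ (Fin 2))))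
    (V : Set (EuclideanSpace ℝ (Fin 2))),
    IsMonotone T ∧ IsOpen V ∧ Convex ℝ V ∧ (V ∩ dom T).Nonempty ∧
      Locates (closure V) T ∧ ¬ Locates V T := by
  let pr : Fin 2 → StrongDual ℝ (EuclideanSpace ℝ (Fin 2)) := fun i => EuclideanSpace.proj i
  have hpr : ∀ i x, pr i x = x i := fun i x => rfl
  let pt : ℝ → ℝ → EuclideanSpace ℝ (Fin 2) := fun a b => !₂[a, b]
  have pt0 : ∀ a b, pt a b 0 = a := fun a b => rfl
  have pt1 : ∀ a b, pt a b 1 = b := fun a b => rfl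
  let T : Set (EuclideanSpace ℝ (Fin 2) × StrongDual ℝ (EuclideanSpace ℝ (Fin 2))) :=
    {p | p.1 0 = 0 ∧ ((0 < p.1 1 ∧ p.2 = 0) ∨ (p.1 1 = 0 ∧ ∃ n : ℝ, p.2 = n • pr 0))}
  let V : Set (EuclideanSpace ℝ (Fin 2)) := {x | 0 < x 1}
  have hVpr : V = pr 1 ⁻¹' Set.Ioi 0 := rfl
  have hVo : IsOpen V := by
    rw [hVpr]
    exact isOpen_Ioi.preimage (pr 1).continuous
  have hVc : closure V ⊆ {x | 0 ≤ x 1} := by
    refine closure_minimal (fun x hx => ?_) ?_
    · exact le_of_lt (show 0 < x 1 from hx)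
    · exact isClosed_Ici.preimage (pr 1).continuous
  have h0 : pt 0 0 ∈ closure V := by
    rw [Metric.mem_closure_iff]
    intro ε hε
    refine ⟨pt 0 (ε / 2), ?_, ?_⟩
    · show 0 < ε / 2
      positivity
    · rw [EuclideanSpace.dist_eq]
      simp only [Fin.sum_univ_two, pt0, pt1]
      rw [Real.dist_eq, Real.dist_eq]
      simp only [sub_self, abs_zero, zero_sub, abs_neg]
      rw [abs_of_pos (by positivity : 0 < ε / 2)]
      rw [show (0 : ℝ) ^ 2 + (ε / 2) ^ 2 = (ε / 2) ^ 2 by ring, Real.sqrt_sq (by positivity)]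
      linarith
  refine ⟨T, V, ?_, hVo, ?_, ?_, ?_, ?_⟩
  · rintro ⟨x, f⟩ ⟨hx0, hx⟩ ⟨y, g⟩ ⟨hy0, hy⟩
    have hf : ∃ n : ℝ, f = n • pr 0 := by
      rcases hx with ⟨-, h⟩ | ⟨-, h⟩
      · exact ⟨0, by rw [zero_smul]; exact h⟩
      · exact h
    have hg : ∃ n : ℝ, g = n • pr 0 := by
      rcases hy with ⟨-, h⟩ | ⟨-, h⟩
      · exact ⟨0, by rw [zero_smul]; exact h⟩
      · exact h
    obtain ⟨n, rfl⟩ := hf
    obtain ⟨k, rfl⟩ := hg
    have hx0' : x 0 = 0 := hx0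
    have hy0' : y 0 = 0 := hy0
    show 0 ≤ (n • pr 0 - k • pr 0) (x - y)
    have : (n • pr 0 - k • pr 0) (x - y) = (n - k) * (x 0 - y 0) := by
      show n * (x 0 - y 0) - k * (x 0 - y 0) = _
      ring
    rw [this, hx0', hy0']
    simp
  · rw [hVpr]
    exact (convex_Ioi (0 : ℝ)).linear_preimage (pr 1).toLinearMap
  · exact ⟨pt 0 1, (zero_lt_one : (0 : ℝ) < 1), 0, rfl, Or.inl ⟨(zero_lt_one : (0 : ℝ) < 1), rfl⟩⟩
  · rintro ⟨x, f⟩ hx hrel
    have hx1 : 0 ≤ x 1 := hVc hx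
    have key : ∀ n : ℝ, n * x 0 ≤ f x := by
      intro n
      have h := hrel (pt 0 0, n • pr 0) ⟨⟨rfl, Or.inr ⟨rfl, n, rfl⟩⟩, h0⟩
      have hz : pt 0 0 = 0 := by
        ext i
        fin_cases i <;> rfl
      have h' : 0 ≤ (f - n • pr 0) (x - pt 0 0) := h
      rw [hz, sub_zero] at h'
      have e : (f - n • pr 0) x = f x - n * x 0 := rfl
      rw [e] at h'
      linarith
    have hx0 : x 0 = 0 := by
      by_contra hne
      have := key ((f x + 1) / x 0)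
      rw [div_mul_cancel₀ _ hne] at this
      linarith
    rcases hx1.lt_or_eq with h | h
    · exact ⟨0, hx0, Or.inl ⟨h, rfl⟩⟩
    · exact ⟨(0 : ℝ) • pr 0, hx0, Or.inr ⟨h.symm, 0, rfl⟩⟩
  · intro h
    obtain ⟨f, hf⟩ := h (pt 1 1, 0) (zero_lt_one : (0 : ℝ) < 1) (by
      rintro ⟨y, g⟩ ⟨⟨hy0, hy⟩, hyV⟩
      have hyV' : 0 < y 1 := hyV
      rcases hy with ⟨-, hg⟩ | ⟨h1, -⟩
      · have hg' : g = 0 := hg
        show 0 ≤ ((0 : StrongDual ℝ (EuclideanSpace ℝ (Fin 2))) - g) (pt 1 1 - y)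
        rw [hg', sub_zero]
        simp
      · have h1' : y 1 = 0 := h1
        exact absurd hyV' (by rw [h1']; exact lt_irrefl 0))
    have : (1 : ℝ) = 0 := hf.1
    exact one_ne_zero this

end Pool.Agent.Results.MP_ddf116_an.ClosureLocates
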